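import Pool.Agent.H69.Va6

namespace Pool.Agent.Results.MP_64528c_al.Yes
open Pool.Agent.H69.Va

theorem result : ∀ (V E : Type) [Finite V] [Finite E] (o t : E → V), IsTreeGraph o t →
    ∀ (G : V → Type) [∀ v, Group (G v)] (C : E → Type) [∀ e, Group (C e)]
      (α : ∀ e, C e →* G (o e)) (ω : ∀ e, C e →* G (t e)),
      (∀ e, Function.Injective (α e)) → (∀ e, Function.Injective (ω e)) →
      (∀ v, FiberedS (G v)) → (∀ e, Infinite (C e) ∧ VirtCyc (C e)) →
      (∀ e, VirtRetract (α e).range ∧ VirtRetract (ω e).range) →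
      ∃ K : Subgroup (TreePi1 o t G C α ω), K.FiniteIndex ∧ FiberedS K := by
  intro V E _ _ o t hT G _ C _ α ω ha hb hf hc hr
  obtain ⟨K, h1, h2⟩ := tree_main o t C α ω hT (fun v => by
      obtain ⟨f, f1, f2⟩ := hf v
      refine ⟨⊤, inferInstance, f.comp (Subgroup.subtype ⊤), fun h => ?_, ?_⟩
      · obtain ⟨g, hg⟩ := f1 (Multiplicative.ofAdd 1)
        have : f g = 1 := DFunLike.congr_fun h ⟨g, trivial⟩
        rw [hg] at this
        exact absurd this (by decide)
      · haveI := (Group.fg_iff_subgroup_fg _).2 f2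
        rw [← Group.fg_iff_subgroup_fg]
        let k : f.ker →* (f.comp (Subgroup.subtype ⊤)).ker := MonoidHom.mk'
          (fun x => ⟨⟨x.1, trivial⟩, x.2⟩) fun _ _ => rfl
        exact Group.fg_of_surjective (f := k) fun x => ⟨⟨x.1.1, x.2⟩, rfl⟩) ha hb
    (fun e => haveI := (hc e).1; wv_of _ (ha e) (hc e).2 (hr e).1)
    (fun e => haveI := (hc e).1; wv_of _ (hb e) (hc e).2 (hr e).2)
  exact ⟨K, h1, fibS h2⟩

end Pool.Agent.Results.MP_64528c_al.Yes
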